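import Pool.Agent.Work.MP_0da4e0_ag.Lin.One

open Matrix Pool.Agent.Work.MP_0da4e0_ag Pool.Agent.Work.MP_0da4e0_ag.Ex
  Pool.Agent.Work.MP_0da4e0_ag.Lin

namespace Pool.Agent.Work.MP_0da4e0_ag.Old.LinearCriterion

/-- The linear criterion: let all Betti realizations of a system of realizations `H` of rank `n` be
polarized, and let `s` be one embedding, with Hodge types (p, q) only for `|p| ≤ h`.
The Hodge tensors of all Betti realizations are `l`-adically absolutely Hodge, up to a finite ambiguity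
of bounded order, if and only if so are the Hodge tensors at `s` of bidegree (a, b),
`a, b ≤ N = n² n! (n h + 1) ^ n`, which are Weil tensors, and for every `l` the `ℚ_l`-linear span, in the
endomorphisms of the `l`-adic realization, of the Lie algebra of all rational matrices killing the Hodge
tensors does not depend on the embedding. They are absolutely Hodge, up to a finite ambiguity
of bounded order, if and only if so are these Weil tensors at `s`, the `l`-adic spans do not depend on the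
embedding and the complex spans in the de Rham realization are given by one subspace defined over `k`.
Let the realization at `s` be of pure weight `w ≠ 0`. If all Hodge endomorphisms at `s` are scalars, the
condition on Weil tensors is not needed. If all central Hodge endomorphisms at `s` are scalars, then all
Hodge tensors of all Betti realizations are (exactly) absolutely Hodge if and only if the spans do not
depend on the embedding and the Hodge endomorphisms at `s` of the realization and of its exterior powers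
of order at most `n / 2` are absolutely Hodge. -/
theorem result {k : Type} [Field k] [IsAlgClosed k] {ι : Type} [Fintype ι] [DecidableEq ι]
    (H : RealSys k ι) (hpol : ∀ σ, ∃ S : Matrix ι ι ℚ, Polarizes (H.hodge σ) S) (s : k →+* ℂ)
    (n h N : ℕ) (hn : n = Fintype.card ι)
    (hh : ∀ p q : ℤ, (H.hodge s).V (p, q) ≠ ⊥ → |p| ≤ h)
    (hN : N = n ^ 2 * n.factorial * (n * h + 1) ^ n) :
    ((∀ σ, ∃ N₀ : ℕ, ∀ (a b : ℕ) (x : Tens ι a b ℚ), IsHodge (H.hodge σ) x →
        IsFinAHet H σ N₀ x) ↔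
      EtIndep H ∧ ∀ a b : ℕ, a ≤ N → b ≤ N → ∀ x : Tens ι a b ℚ,
        IsHodge (H.hodge s) x → IsWeil (H.hodge s) x → ∃ N₀ : ℕ, IsFinAHet H s N₀ x) ∧
    ((∀ σ, ∃ N₀ : ℕ, ∀ (a b : ℕ) (x : Tens ι a b ℚ), IsHodge (H.hodge σ) x →
        IsFinAH H σ N₀ x) ↔
      (EtIndep H ∧ DRIndep H) ∧ ∀ a b : ℕ, a ≤ N → b ≤ N → ∀ x : Tens ι a b ℚ,
        IsHodge (H.hodge s) x → IsWeil (H.hodge s) x → ∃ N₀ : ℕ, IsFinAH H s N₀ x) ∧
    (∀ w : ℤ, w ≠ 0 → (∀ p q, (H.hodge s).V (p, q) ≠ ⊥ → p + q = w) →
      ((∀ A : Matrix ι ι ℚ, IsHodge (H.hodge s) (matT A) → ∃ c : ℚ, A = c • (1 : Matrix ι ι ℚ)) →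
        ((∀ σ, ∃ N₀ : ℕ, ∀ (a b : ℕ) (x : Tens ι a b ℚ), IsHodge (H.hodge σ) x →
          IsFinAHet H σ N₀ x) ↔ EtIndep H) ∧
        ((∀ σ, ∃ N₀ : ℕ, ∀ (a b : ℕ) (x : Tens ι a b ℚ), IsHodge (H.hodge σ) x →
          IsFinAH H σ N₀ x) ↔ EtIndep H ∧ DRIndep H)) ∧
      ((∀ Z : Matrix ι ι ℚ, IsCentral (H.hodge s) Z → ∃ c : ℚ, Z = c • (1 : Matrix ι ι ℚ)) →
        ((∀ (σ : k →+* ℂ) (a b : ℕ) (x : Tens ι a b ℚ), IsHodge (H.hodge σ) x →
            ∃ t : AHTensor H a b, t.betti σ = x) ↔
          (EtIndep H ∧ DRIndep H) ∧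
            ∀ f : ℕ, f = 1 ∨ 2 * f ≤ n → ∀ x : Tens ι f f ℚ, IsHodge (H.hodge s) x →
              Alt2 x → ∃ t : AHTensor H f f, t.betti s = x))) := by
  subst hn
  subst hN
  exact ⟨one_et hpol s h hh, one_all hpol s h hh,
    fun w hw hpure => ⟨fun hE => one_scalar hpol s hw hpure hE,
      fun hZ => one_exact hpol s hw hpure hZ⟩⟩

end Pool.Agent.Work.MP_0da4e0_ag.Old.LinearCriterion
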