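import Pool.Agent.Work.MP_0da4e0_ag.WeilMaster

open Matrix Pool.Agent.Work.MP_0da4e0_ag

namespace Pool.Agent.Work.MP_0da4e0_ag.Old.OneClassCriterion

/-- The one class criterion: let the Betti realization at `σ` be polarized, and let `T` be any family of
Hodge tensors. Then all Hodge tensors killed by the central Hodge endomorphisms which kill `T` are
absolutely Hodge up to a finite ambiguity of bounded order if and only if so are one explicit Hodge
tensor `π` with two upper and two lower indices (the orthogonal projector onto the Lie algebra of all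
matrices killing the Hodge tensors), the Hodge endomorphisms and the members of `T`. -/
theorem result {k : Type} [Field k] [IsAlgClosed k] {ι : Type} [Fintype ι] [DecidableEq ι]
    (H : RealSys k ι) (σ : k →+* ℂ) (S : Matrix ι ι ℚ) (hS : Polarizes (H.hodge σ) S) :
    ∃ π : Tens ι 2 2 ℚ, IsLieProj (H.hodge σ) π ∧ IsHodge (H.hodge σ) π ∧
      ∀ (I : Type) (m n : I → ℕ) (T : ∀ i, Tens ι (m i) (n i) ℚ),
        (∀ i, IsHodge (H.hodge σ) (T i)) →
        ((∃ N₀ : ℕ, ∀ (a b : ℕ) (x : Tens ι a b ℚ), IsHodge (H.hodge σ) x →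
          (∀ Z : Matrix ι ι ℚ, IsHodge (H.hodge σ) (matT Z) →
            (∀ A : Matrix ι ι ℚ, IsHodge (H.hodge σ) (matT A) → Z * A = A * Z) →
            (∀ i, dact Z (T i) = 0) → dact Z x = 0) → IsFinAH H σ N₀ x) ↔
          (∃ N₀ : ℕ, IsFinAH H σ N₀ π) ∧
          (∀ A : Matrix ι ι ℚ, IsHodge (H.hodge σ) (matT A) → ∃ N₀ : ℕ, IsFinAH H σ N₀ (matT A)) ∧
          ∀ i, ∃ N₀ : ℕ, IsFinAH H σ N₀ (T i)) := by
  obtain ⟨π, hπ⟩ := exists_projQ hS
  exact ⟨π, hπ, hπ.isHodge hS, fun I m n T hT => one_class H σ S hS hπ T hT⟩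

end Pool.Agent.Work.MP_0da4e0_ag.Old.OneClassCriterion
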